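import Mathlib
import Pool.Agent.H14R3.Aug.Stmts

set_option autoImplicit false

open scoped ENNReal InnerProductSpace

namespace Pool.Agent.H14R3.Aug

noncomputable section

namespace GradOpAux

lemma two_pos : 0 < (2 : ℝ≥0∞).toReal := by norm_num

lemma summ {I : Type} (f : H I) : Summable fun i => ‖f i‖ ^ (2 : ℝ≥0∞).toReal :=
  (memℓp_gen_iff two_pos).1 (lp.memℓp f)

lemma norm_pow {I : Type} (f : H I) :
    ∑' i, ‖f i‖ ^ (2 : ℝ≥0∞).toReal = ‖f‖ ^ (2 : ℝ≥0∞).toReal :=
  (lp.norm_rpow_eq_tsum two_pos f).symm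

/-- composition with an injective map -/
def pull {I J : Type} (e : I → J) (he : Function.Injective e) : H J →L[ℂ] H I :=
  LinearMap.mkContinuous
    { toFun := fun f => ⟨fun i => f (e i), (memℓp_gen_iff two_pos).2 ((summ f).comp_injective he)⟩
      map_add' := fun f g => rfl
      map_smul' := fun c f => rfl } 1 (by
      intro f
      rw [one_mul]
      refine lp.norm_le_of_tsum_le two_pos (norm_nonneg _) ?_
      rw [← norm_pow f]
      exact tsum_comp_le_tsum_of_inj (summ f) (fun i => by positivity) he)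

lemma pull_apply {I J : Type} (e : I → J) (he : Function.Injective e) (f : H J) (i : I) :
    pull e he f i = f (e i) := rfl

/-- extension by zero to the component `i` -/
def push {Γ : Type} (k : ℕ) (i : Fin k) : H Γ →L[ℂ] H (Fin k × Γ) :=
  have hinj : Function.Injective (fun h : Γ => ((i, h) : Fin k × Γ)) := fun a b h => by
    simpa using h
  have key : ∀ f : H Γ, ∀ x : Fin k × Γ, x ∉ Set.range (fun h : Γ => ((i, h) : Fin k × Γ)) →
      ‖(if x.1 = i then f x.2 else 0 : ℂ)‖ ^ (2 : ℝ≥0∞).toReal = 0 := by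
    intro f x hx
    have : x.1 ≠ i := by
      rintro rfl
      exact hx ⟨x.2, rfl⟩
    rw [if_neg this, norm_zero]
    norm_num
  have hcomp : ∀ f : H Γ, (fun x : Fin k × Γ =>
      ‖(if x.1 = i then f x.2 else 0 : ℂ)‖ ^ (2 : ℝ≥0∞).toReal) ∘
        (fun h : Γ => ((i, h) : Fin k × Γ)) = fun h => ‖f h‖ ^ (2 : ℝ≥0∞).toReal := by
    intro f
    funext h
    simp
  LinearMap.mkContinuous
    { toFun := fun f => ⟨fun x => if x.1 = i then f x.2 else 0, (memℓp_gen_iff two_pos).2 (by
        rw [← hinj.summable_iff (key f), hcomp f]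
        exact summ f)⟩
      map_add' := by
        intro f g
        ext x
        simp only [lp.coeFn_add, Pi.add_apply]
        split_ifs <;> simp
      map_smul' := by
        intro c f
        ext x
        simp only [lp.coeFn_smul, Pi.smul_apply, RingHom.id_apply]
        split_ifs <;> simp } 1 (by
      intro f
      rw [one_mul]
      refine lp.norm_le_of_tsum_le two_pos (norm_nonneg _) ?_
      rw [← norm_pow f]
      have h1 := hinj.tsum_eq (f := fun x : Fin k × Γ =>
        ‖(if x.1 = i then f x.2 else 0 : ℂ)‖ ^ (2 : ℝ≥0∞).toReal) (by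
          intro x hx
          by_contra hcon
          exact hx (key f x hcon))
      have h2 : ∀ h : Γ, (fun x : Fin k × Γ =>
        ‖(if x.1 = i then f x.2 else 0 : ℂ)‖ ^ (2 : ℝ≥0∞).toReal) (i, h)
          = ‖f h‖ ^ (2 : ℝ≥0∞).toReal := fun h => congrFun (hcomp f) h
      simp only [h2] at h1
      exact h1.ge)

lemma push_apply {Γ : Type} (k : ℕ) (i : Fin k) (f : H Γ) (x : Fin k × Γ) :
    push k i f x = if x.1 = i then f x.2 else 0 := rfl

lemma inj_mul {n : ℕ} (l : Fin n) (g : G n) :
    Function.Injective (fun h : G n => ((l, g * h) : Fin n × G n)) := by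
  intro a b h
  simpa using h

/-- the path operator of a word -/
def Pw {n : ℕ} : List (Fin n × Bool) → (H (Fin n × G n) →L[ℂ] H (G n))
  | [] => 0
  | (l, true) :: w => Pw w + pull _ (inj_mul l (FreeGroup.mk w))
  | (l, false) :: w => Pw w - pull _ (inj_mul l (FreeGroup.mk ((l, false) :: w)))

lemma Pw_nil {n : ℕ} (p : H (Fin n × G n)) (h : G n) : Pw [] p h = 0 := rfl

lemma Pw_true {n : ℕ} (l : Fin n) (w : List (Fin n × Bool)) (p : H (Fin n × G n)) (h : G n) :
    Pw ((l, true) :: w) p h = Pw w p h + p (l, FreeGroup.mk w * h) := rfl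

lemma Pw_false {n : ℕ} (l : Fin n) (w : List (Fin n × Bool)) (p : H (Fin n × G n)) (h : G n) :
    Pw ((l, false) :: w) p h = Pw w p h - p (l, FreeGroup.mk ((l, false) :: w) * h) := rfl

lemma Pw_grad {n : ℕ} (f : G n → ℂ) (p : H (Fin n × G n))
    (hp : ∀ l g, f (FreeGroup.of l * g) - f g = p (l, g)) (w : List (Fin n × Bool)) (h : G n) :
    Pw w p h = f (FreeGroup.mk w * h) - f h := by
  induction w with
  | nil =>
    rw [Pw_nil, ← FreeGroup.one_eq_mk, one_mul, sub_self]
  | cons a w ih =>
    obtain ⟨l, b⟩ := a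
    cases b with
    | true =>
      have h1 : (FreeGroup.mk ((l, true) :: w) : G n) = FreeGroup.of l * FreeGroup.mk w := by
        rw [FreeGroup.of, FreeGroup.mul_mk]; rfl
      rw [Pw_true, ih, ← hp, h1, mul_assoc]
      ring
    | false =>
      have h1 : FreeGroup.of l * (FreeGroup.mk ((l, false) :: w) : G n) = FreeGroup.mk w := by
        have h2 : (FreeGroup.mk ((l, false) :: w) : G n) = (FreeGroup.of l)⁻¹ * FreeGroup.mk w := by
          rw [FreeGroup.of, FreeGroup.inv_mk, FreeGroup.mul_mk]; rfl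
        rw [h2, mul_inv_cancel_left]
      rw [Pw_false, ih, ← hp, ← mul_assoc, h1]
      ring

lemma Pw_equi {n : ℕ} (w : List (Fin n × Bool)) (h : G n) (f f' : H (Fin n × G n))
    (hf : ∀ i g, f' (i, g) = f (i, g * h)) (g : G n) : Pw w f' g = Pw w f (g * h) := by
  induction w with
  | nil => rfl
  | cons a w ih =>
    obtain ⟨l, b⟩ := a
    cases b with
    | true => rw [Pw_true, Pw_true, ih, hf, mul_assoc]
    | false => rw [Pw_false, Pw_false, ih, hf, mul_assoc]

end GradOpAux

open GradOpAux

theorem GradOp_proof : GradOp := by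
  intro n k x S hx
  let T : Fin k → (H (Fin n × G n) →L[ℂ] H (G n)) := fun i => ∑ u ∈ S, x i u • Pw u.toWord
  let TT : H (Fin n × G n) →L[ℂ] H (Fin k × G n) := ∑ i, (push k i).comp (T i)
  have hT : ∀ i p h, T i p h = ∑ u ∈ S, x i u * Pw u.toWord p h := by
    intro i p h
    simp only [T]
    rw [sum_apply, lp.coeFn_sum, Finset.sum_apply]
    refine Finset.sum_congr rfl fun u _ => ?_
    rfl
  have hTT : ∀ p i h, TT p (i, h) = T i p h := by
    intro p i h
    simp only [TT]
    rw [sum_apply, lp.coeFn_sum, Finset.sum_apply]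
    have h1 : ∀ j : Fin k, ((push k j).comp (T j)) p (i, h) = if j = i then T j p h else 0 := by
      intro j
      rw [ContinuousLinearMap.comp_apply, push_apply]
      by_cases hij : i = j
      · simp [hij]
      · simp [hij, Ne.symm hij]
    rw [Finset.sum_congr rfl fun j _ => h1 j, Finset.sum_ite_eq']
    simp
  refine ⟨TT, ?_, ?_⟩
  · intro h f f' hf j g
    rw [hTT, hTT, hT, hT]
    exact Finset.sum_congr rfl fun u _ => by rw [Pw_equi _ h f f' hf]
  · intro f p hp i h
    rw [hTT, hT]
    have h1 : ∀ u ∈ S, x i u * Pw u.toWord p h = x i u * f (u * h) - x i u * f h := by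
      intro u _
      rw [Pw_grad f p hp, FreeGroup.mk_toWord]
      ring
    rw [Finset.sum_congr rfl h1, Finset.sum_sub_distrib, ← Finset.sum_mul, hx i]
    ring

end

end Pool.Agent.H14R3.Aug
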